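import Pool.Agent.W_MP_63dac5_pr.Matched

/-!
# An exact criterion for percolation
-/

namespace Pool.Agent.Results.MP_63dac5_pr.ExactCriterion

open MeasureTheory ProbabilityTheory
open Pool.Agent.W_MP_63dac5_pr

lemma closed_iff_degree (x : ℤ → ℕ × ℕ) (n : ℤ) :
    Closed x 1 n ↔ ∀ i : ℤ, 1 ≤ i → i ≤ n →
      {j : ℤ | 1 ≤ j ∧ j ≤ n ∧ (G x).Adj i j}.ncard = (x i).1 + (x i).2 := by
  classical
  have key : ∀ i : ℤ, 1 ≤ i → i ≤ n →
      {j : ℤ | 1 ≤ j ∧ j ≤ n ∧ (G x).Adj i j}.ncard = lc x 1 i + rc x i n := by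
    intro i hi1 hi2
    have hset : {j : ℤ | 1 ≤ j ∧ j ≤ n ∧ (G x).Adj i j} =
        (((Finset.Ico 1 i).filter (fun m => E x m i) ∪
          (Finset.Ioc i n).filter (fun m => E x i m) : Finset ℤ) : Set ℤ) := by
      ext j
      simp only [Set.mem_ofPred_eq, Finset.coe_union, Finset.coe_filter, Finset.mem_Ico,
        Finset.mem_Ioc, Set.mem_union, G_adj]
      constructor
      · rintro ⟨h1, h2, h3 | h3⟩
        · exact Or.inr ⟨⟨E_lt h3, h2⟩, h3⟩
        · exact Or.inl ⟨⟨h1, E_lt h3⟩, h3⟩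
      · rintro (⟨⟨h1, h2⟩, h3⟩ | ⟨⟨h1, h2⟩, h3⟩)
        · exact ⟨h1, by omega, Or.inr h3⟩
        · exact ⟨by omega, h2, Or.inl h3⟩
    rw [hset, Set.ncard_coe_finset, Finset.card_union_of_disjoint]
    · rfl
    · rw [Finset.disjoint_left]
      intro j hj hj'
      rw [Finset.mem_filter, Finset.mem_Ico] at hj
      rw [Finset.mem_filter, Finset.mem_Ioc] at hj'
      omega
  unfold Closed
  refine forall_congr' fun i => forall_congr' fun hi1 => forall_congr' fun hi2 => ?_
  rw [key i hi1 hi2]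
  have h1 := rc_le x i n
  have h2 := lc_le x 1 i
  omega

/-- Let the points of a configuration on the line be listed in increasing order by
`T ω : ℤ → ℝ`, and give them independent marks `X i = (L, R)` where `D = L + R` has law `μ` on the
positive integers and `R` is binomial `(D, 1/2)` given `D`.  Let `c n` be the probability that each
of the points `1, …, n` has all its `L + R` neighbours among the points `1, …, n` (this depends
on the marks of these `n` points only).  If `∑ n c n < ∞` then almost surely there is an infinite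
component, and if `∑ n c n = ∞` then almost surely all components are finite. -/
theorem result
    {Ω : Type*} [MeasurableSpace Ω] (P : Measure Ω) [IsProbabilityMeasure P]
    (T : Ω → ℤ → ℝ) (hT : ∀ᵐ ω ∂P, StrictMono (T ω))
    (μ : PMF ℕ) (hμ : μ 0 = 0)
    (X : ℤ → Ω → ℕ × ℕ) (hX : ∀ i, Measurable (X i)) (hind : iIndepFun X P)
    (hlaw : ∀ (i : ℤ) (l r : ℕ), P {ω | X i ω = (l, r)} =
      μ (l + r) * ((l + r).choose r : ENNReal) / 2 ^ (l + r))
    (c : ℕ → ENNReal)
    (hc : ∀ n : ℕ, c n = P {ω | ∀ i : ℤ, 1 ≤ i → i ≤ n →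
      {j : ℤ | 1 ≤ j ∧ j ≤ n ∧ (graph (T ω) (fun m => X m ω)).Adj i j}.ncard =
        (X i ω).1 + (X i ω).2}) :
    (∑' n : ℕ, (n : ENNReal) * c n < ⊤ →
      ∀ᵐ ω ∂P, ∃ i : ℤ, {j : ℤ | (graph (T ω) (fun n => X n ω)).Reachable i j}.Infinite) ∧
    (∑' n : ℕ, (n : ENNReal) * c n = ⊤ →
      ∀ᵐ ω ∂P, ∀ i : ℤ, {j : ℤ | (graph (T ω) (fun n => X n ω)).Reachable i j}.Finite) := by
  have hν : ∀ i a, P (X i ⁻¹' {a}) = nu μ a := fun i a => hlaw i a.1 a.2
  have hc' : ∀ n : ℕ, c n = P {ω | Closed (fun i => X i ω) 1 (n : ℤ)} := by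
    intro n
    rw [hc]
    refine measure_congr ?_
    filter_upwards [hT] with ω hω
    have h1 := closed_iff_degree (fun i => X i ω) (n : ℤ)
    have h2 : graph (T ω) (fun m => X m ω) = G (fun i => X i ω) := graph_congr hω _
    refine propext ?_
    show (∀ i : ℤ, 1 ≤ i → i ≤ n →
      {j : ℤ | 1 ≤ j ∧ j ≤ n ∧ (graph (T ω) (fun m => X m ω)).Adj i j}.ncard =
        (X i ω).1 + (X i ω).2) ↔ Closed (fun i => X i ω) 1 (n : ℤ)
    rw [h2]
    exact h1.symm
  -- a degree of positive probability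
  obtain ⟨d, hd⟩ : ∃ d, μ d ≠ 0 := by
    by_contra h
    push Not at h
    have h1 := μ.tsum_coe
    simp only [h, tsum_zero] at h1
    exact zero_ne_one h1
  have hd1 : 1 ≤ d := by
    rcases Nat.eq_zero_or_pos d with rfl | h
    · exact absurd hμ hd
    · exact h
  have hd' : nu μ (0, d) ≠ 0 := by
    unfold nu
    simp only [zero_add, Nat.choose_self, Nat.cast_one, mul_one]
    exact (ENNReal.div_pos hd (by simp)).ne'
  simp only [hc']
  constructor
  · intro h
    filter_upwards [hT, percolation_of_tsum hX hind hν (nu_swap μ) hd1 hd' h.ne] with ω h1 h2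
    rw [graph_congr h1]
    exact h2
  · intro h
    filter_upwards [hT, no_percolation_of_tsum' hX hind hν h] with ω h1 h2
    rw [graph_congr h1]
    exact h2

end Pool.Agent.Results.MP_63dac5_pr.ExactCriterion
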