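import Pool.Agent.W_63dac5_h39.Fin

/-!
# Percolation for degree laws of finite variance
-/

set_option autoImplicit false

namespace Pool.Agent.Results.MP_63dac5_pr.FiniteVariance

open MeasureTheory ProbabilityTheory
open Pool.Agent.W_MP_63dac5_pr

universe u

/-- Almost surely there is an infinite component if the degree law is `μ`: for all random positions
`T ω : ℤ → ℝ` of the points (listed in increasing order) and all independent marks `X i = (L, R)` such that
`L + R` has law `μ` and `R` is binomial `(L + R, 1/2)` given `L + R`, the random direction stable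
multi-matching `graph (T ω) (fun n => X n ω)` has almost surely an infinite component. -/
def Percolates (μ : PMF ℕ) : Prop :=
  ∀ (Ω : Type u) [MeasurableSpace Ω] (P : Measure Ω) [IsProbabilityMeasure P]
    (T : Ω → ℤ → ℝ), (∀ᵐ ω ∂P, StrictMono (T ω)) →
    ∀ (X : ℤ → Ω → ℕ × ℕ), (∀ i, Measurable (X i)) → iIndepFun X P →
    (∀ (i : ℤ) (l r : ℕ), P {ω | X i ω = (l, r)} =
      μ (l + r) * ((l + r).choose r : ENNReal) / 2 ^ (l + r)) →
    ∀ᵐ ω ∂P, ∃ i : ℤ, {j : ℤ | (graph (T ω) (fun n => X n ω)).Reachable i j}.Infinite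

lemma percolates_of_tail {α ρ : ℝ} (h2 : 2 < α) (h3 : α < 3) (hρ : 1 ≤ ρ) :
    ∃ K0 : ℕ, ∀ K : ℕ, K0 ≤ K → ∀ μ : PMF ℕ, Pool.Agent.W_63dac5_h39.Tail α ρ K μ →
      Percolates.{u} μ := by
  obtain ⟨K0, hK0⟩ := Pool.Agent.W_63dac5_h39.percolates h2 h3 hρ
  refine ⟨K0, fun K hK μ hμ Ω _ P _ T hT X hX hind hlaw => ?_⟩
  have hν : ∀ i a, P (X i ⁻¹' {a}) = nu μ a := fun i a => hlaw i a.1 a.2
  filter_upwards [hT, hK0 K hK μ hμ P X hX hind hν] with ω h1 h4
  rw [graph_congr h1]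
  exact h4

/-- For all real `2 < α < 3` and `ρ ≥ 1` there is `K0` such that for all `K ≥ K0` every degree law `μ`
with `(K / x) ^ α / ρ ≤ P (D > x) ≤ ρ (K / x) ^ α` for all integers `x ≥ K` percolates.  In particular for
every `a < 3` some law on the positive integers with `E D ^ a < ∞` percolates. -/
theorem result :
    (∀ α ρ : ℝ, 2 < α → α < 3 → 1 ≤ ρ → ∃ K0 : ℕ, ∀ K : ℕ, K0 ≤ K → ∀ μ : PMF ℕ,
      (∀ x : ℕ, K ≤ x →
        ((K : ℝ) / x) ^ α / ρ ≤ ∑' d : ℕ, (if x < d then (μ d).toReal else 0) ∧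
        ∑' d : ℕ, (if x < d then (μ d).toReal else 0) ≤ ρ * ((K : ℝ) / x) ^ α) →
      Percolates.{u} μ) ∧
    (∀ a : ℝ, a < 3 → ∃ μ : PMF ℕ, μ 0 = 0 ∧
      Summable (fun d : ℕ => (μ d).toReal * (d : ℝ) ^ a) ∧ Percolates.{u} μ) := by
  refine ⟨fun α ρ h2 h3 hρ => ?_, fun a ha => ?_⟩
  · obtain ⟨K0, hK0⟩ := percolates_of_tail.{u} h2 h3 hρ
    exact ⟨K0, fun K hK μ hμ => hK0 K hK μ ⟨fun x hx => (hμ x hx).1, fun x hx => (hμ x hx).2⟩⟩
  · set α : ℝ := (max a 2 + 3) / 2 with hα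
    have h4 : max a 2 < 3 := max_lt ha (by norm_num)
    have h2 : 2 < α := by
      have := le_max_right a 2
      rw [hα]
      linarith
    have h3 : α < 3 := by
      rw [hα]
      linarith
    have h5 : a < α := by
      have := le_max_left a 2
      rw [hα]
      linarith
    obtain ⟨K0, hK0⟩ := percolates_of_tail.{u} h2 h3 (le_refl (1 : ℝ))
    obtain ⟨μ, h6, h7, h8⟩ := Pool.Agent.W_63dac5_h39.exists_pareto h2 h5 (K := max K0 1)
      (le_max_right _ _)
    exact ⟨μ, h6, h8, hK0 _ (le_max_left _ _) μ h7⟩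

end Pool.Agent.Results.MP_63dac5_pr.FiniteVariance
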