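import Pool.Agent.W_MP_63dac5_pr.HeavyMain
import Pool.Agent.W_MP_63dac5_pr.PowerTail

/-!
# Percolation for heavy-tailed degrees
-/

namespace Pool.Agent.Results.MP_63dac5_pr.HeavyTails

open MeasureTheory ProbabilityTheory
open Pool.Agent.W_MP_63dac5_pr

/-- Let the points of a configuration on the line be listed in increasing order by
`T ω : ℤ → ℝ`, and give them independent marks `X i = (L, R)` where `D = L + R` has law `μ` on the
positive integers and `R` is binomial `(D, 1/2)` given `D`.  If `x ^ 2 P(D > x) ≥ c E[min(D, x)]`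
for all large `x`, for some `c > 4` (in particular if `P(D > x)` is of order `x ^ (-α)` with
`0 < α < 2`), then the random direction stable multi-matching has an infinite component
almost surely. -/
theorem result
    {Ω : Type*} [MeasurableSpace Ω] (P : Measure Ω) [IsProbabilityMeasure P]
    (T : Ω → ℤ → ℝ) (hT : ∀ᵐ ω ∂P, StrictMono (T ω))
    (μ : PMF ℕ) (hμ : μ 0 = 0)
    (X : ℤ → Ω → ℕ × ℕ) (hX : ∀ i, Measurable (X i)) (hind : iIndepFun X P)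
    (hlaw : ∀ (i : ℤ) (l r : ℕ), P {ω | X i ω = (l, r)} =
      μ (l + r) * ((l + r).choose r : ENNReal) / 2 ^ (l + r))
    (hheavy :
      (∃ (c : ℝ) (x₀ : ℕ), 4 < c ∧ ∀ x : ℕ, x₀ ≤ x →
        c * ∑' d : ℕ, (μ d).toReal * min (d : ℝ) x ≤
          (x : ℝ) ^ 2 * ∑' d : ℕ, (if x < d then (μ d).toReal else 0)) ∨
      (∃ α C₁ C₂ : ℝ, 0 < α ∧ α < 2 ∧ 0 < C₁ ∧ ∀ x : ℕ, 1 ≤ x →
        C₁ * (x : ℝ) ^ (-α) ≤ ∑' d : ℕ, (if x < d then (μ d).toReal else 0) ∧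
        ∑' d : ℕ, (if x < d then (μ d).toReal else 0) ≤ C₂ * (x : ℝ) ^ (-α))) :
    ∀ᵐ ω ∂P, ∃ i : ℤ, {j : ℤ | (graph (T ω) (fun n => X n ω)).Reachable i j}.Infinite := by
  obtain ⟨c, x₀, hc, hcrit⟩ : ∃ (c : ℝ) (x₀ : ℕ), 4 < c ∧ ∀ x : ℕ, x₀ ≤ x →
        c * ∑' d : ℕ, (μ d).toReal * min (d : ℝ) x ≤
          (x : ℝ) ^ 2 * ∑' d : ℕ, (if x < d then (μ d).toReal else 0) := by
    rcases hheavy with h | ⟨α, C₁, C₂, h1, h2, h3, h4⟩
    · exact h
    · obtain ⟨x₀, hx₀⟩ := power_tail μ h1 h2 h3 h4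
      exact ⟨5, x₀, by norm_num, hx₀⟩
  have hν : ∀ i a, P (X i ⁻¹' {a}) = nu μ a := fun i a => hlaw i a.1 a.2
  obtain ⟨A, B, hAB⟩ := heavy_lyap μ hμ hc hcrit
  have hS : ∀ h, ∑' n, Sv (nu μ) n h ≠ ⊤ := fun h =>
    ne_top_of_le_ne_top ENNReal.ofReal_ne_top
      (tsum_Sv_le (nu μ) (fun z => ENNReal.ofReal (B * ((z : ℝ) + A) ^ 2)) hAB h)
  filter_upwards [hT, percolation_of_summable hX hind hν (nu_swap μ) hS] with ω h1 h2
  rw [graph_congr h1]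
  exact h2

end Pool.Agent.Results.MP_63dac5_pr.HeavyTails
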