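import Pool.Agent.W_63dac5_h39b.Top

/-!
# No percolation for degree laws with a finite third moment, and for laws near them
-/

set_option autoImplicit false

namespace Pool.Agent.Results.MP_63dac5_pr.ThirdMoment

open MeasureTheory ProbabilityTheory
open Pool.Agent.W_MP_63dac5_pr

universe u

/-- Almost surely all components are finite if the degree law is `μ`: for all random positions
`T ω : ℤ → ℝ` of the points (listed in increasing order) and all independent marks `X i = (L, R)` such that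
`L + R` has law `μ` and `R` is binomial `(L + R, 1/2)` given `L + R`, all components of the random direction
stable multi-matching `graph (T ω) (fun n => X n ω)` are almost surely finite. -/
def FiniteComponents (μ : PMF ℕ) : Prop :=
  ∀ (Ω : Type u) [MeasurableSpace Ω] (P : Measure Ω) [IsProbabilityMeasure P]
    (T : Ω → ℤ → ℝ), (∀ᵐ ω ∂P, StrictMono (T ω)) →
    ∀ (X : ℤ → Ω → ℕ × ℕ), (∀ i, Measurable (X i)) → iIndepFun X P →
    (∀ (i : ℤ) (l r : ℕ), P {ω | X i ω = (l, r)} =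
      μ (l + r) * ((l + r).choose r : ENNReal) / 2 ^ (l + r)) →
    ∀ᵐ ω ∂P, ∀ i : ℤ, {j : ℤ | (graph (T ω) (fun n => X n ω)).Reachable i j}.Finite

lemma finite_of_top {μ : PMF ℕ} (h : ∑' e : ℕ × ℕ, cw (nu μ) (e.1 + e.2) = ⊤) :
    FiniteComponents.{u} μ := by
  intro Ω _ P _ T hT X hX hind hlaw
  have hν : ∀ i a, P (X i ⁻¹' {a}) = nu μ a := fun i a => hlaw i a.1 a.2
  filter_upwards [hT, Pool.Agent.W_63dac5_h39b.no_perc h hX hind hν] with ω h1 h2
  rw [graph_congr h1]
  exact h2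

/-- For every `s` in `(1, 2]` there is a constant `c > 0` such that all components are finite for every degree
law `μ` on the positive integers with `M = E D ^ (s + 1)` finite and
`c h (1 + log (h (1 + M))) E ((D - h)^+) ^ 2 ≤ 1` for some integer `h ≥ 1`.  In particular all components
are finite if `E D ^ 3` is finite, and for the laws `(1 - e) p + e q` with small `e ≥ 0` if `p` has a finite third
moment and `q` a finite moment of some order larger than two. -/
theorem result :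
    (∀ s : ℝ, 1 < s → s ≤ 2 → ∃ c : ℝ, 0 < c ∧ ∀ μ : PMF ℕ, μ 0 = 0 →
      Summable (fun d : ℕ => (μ d).toReal * (d : ℝ) ^ (s + 1)) → ∀ h : ℕ, 1 ≤ h →
      c * h * (1 + Real.log (h * (1 + ∑' d : ℕ, (μ d).toReal * (d : ℝ) ^ (s + 1)))) *
        ∑' d : ℕ, (μ d).toReal * ((d - h : ℕ) : ℝ) ^ 2 ≤ 1 → FiniteComponents.{u} μ) ∧
    (∀ μ : PMF ℕ, μ 0 = 0 → Summable (fun d : ℕ => (μ d).toReal * (d : ℝ) ^ 3) →
      FiniteComponents.{u} μ) ∧
    (∀ p q : PMF ℕ, p 0 = 0 → q 0 = 0 → Summable (fun d : ℕ => (p d).toReal * (d : ℝ) ^ 3) →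
      ∀ a : ℝ, 2 < a → Summable (fun d : ℕ => (q d).toReal * (d : ℝ) ^ a) →
      ∃ e₀ : ℝ, 0 < e₀ ∧ ∀ (e : ℝ) (μ : PMF ℕ), 0 ≤ e → e ≤ e₀ →
        (∀ d, (μ d).toReal = (1 - e) * (p d).toReal + e * (q d).toReal) →
        FiniteComponents.{u} μ) := by
  refine ⟨fun s hs hs2 => ?_, fun μ h0 h => ?_, fun p q hp0 hq0 hp a ha hq => ?_⟩
  · obtain ⟨c, hc, h⟩ := Pool.Agent.W_63dac5_h39b.crit_top hs hs2
    exact ⟨c, hc, fun μ h0 hsum h' hh hle => finite_of_top (h μ h0 hsum h' hh hle)⟩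
  · exact finite_of_top (Pool.Agent.W_63dac5_h39b.third_top h0 h)
  · obtain ⟨e₀, he₀, h⟩ := Pool.Agent.W_63dac5_h39b.mix_top hp0 hq0 hp ha hq
    exact ⟨e₀, he₀, fun e μ he he1 hμ => finite_of_top (h e μ he he1 hμ)⟩

end Pool.Agent.Results.MP_63dac5_pr.ThirdMoment
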